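import Mathlib

open Filter Topology

namespace Pool.Agent.Results.MP_256cd6_an.EntropyGap

/-- The hom Markov tree-shift of the square matrix `M` on the `d`-tree.  The nodes of the `d`-tree
are the finite words (lists) over `Fin d`, the root is `[]`, and the children of `g` are the words
`g ++ [i]`. -/
def treeShift (d : ℕ) {k : ℕ} (M : Matrix (Fin k) (Fin k) ℕ) : Set (List (Fin d) → Fin k) :=
  {t | ∀ (g : List (Fin d)) (i : Fin d), M (t g) (t (g ++ [i])) = 1}

/-- The restriction of a labeling to the ball of words of length at most `n`. -/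
def restrict {d k : ℕ} (n : ℕ) (t : List (Fin d) → Fin k) :
    {g : List (Fin d) // g.length ≤ n} → Fin k := fun g => t g

/-- The number of distinct restrictions of elements of the tree-shift to the ball
of words of length at most `n`. -/
noncomputable def patternCount (d : ℕ) {k : ℕ} (M : Matrix (Fin k) (Fin k) ℕ) (n : ℕ) : ℕ :=
  (restrict n '' treeShift d M).ncard

/-- The number of words of length at most `n` over `Fin d`. -/
noncomputable def ballCard (d n : ℕ) : ℕ := Nat.card {g : List (Fin d) // g.length ≤ n}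

/-- `h` is the entropy of the tree-shift of `M`: the limit of `log p_M(n) / |Δ_n|`. -/
def IsEntropy (d : ℕ) {k : ℕ} (M : Matrix (Fin k) (Fin k) ℕ) (h : ℝ) : Prop :=
  Tendsto (fun n : ℕ => Real.log (patternCount d M n) / (ballCard d n : ℝ)) atTop (𝓝 h)

/-- The set of all entropies of nonempty hom Markov tree-shifts on the `d`-tree
given by square matrices (of any size) with entries in `{0, 1}`. -/
def entropySet (d : ℕ) : Set ℝ :=
  {h | ∃ (k : ℕ) (M : Matrix (Fin k) (Fin k) ℕ), (∀ i j, M i j = 0 ∨ M i j = 1) ∧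
    (treeShift d M).Nonempty ∧ IsEntropy d M h}

/-- The set of all entropies coming from irreducible binary matrices. -/
def entropySetIrr (d : ℕ) : Set ℝ :=
  {h | ∃ (k : ℕ) (M : Matrix (Fin k) (Fin k) ℕ), (∀ i j, M i j = 0 ∨ M i j = 1) ∧
    (∀ i j, ∃ m : ℕ, 1 ≤ m ∧ 0 < (M ^ m) i j) ∧
    (treeShift d M).Nonempty ∧ IsEntropy d M h}

/-! ### Cardinality of balls -/

instance finite_ball (d n : ℕ) : Finite {g : List (Fin d) // g.length ≤ n} :=
  (List.finite_length_le (Fin d) n).to_subtype

lemma ballCard_zero (d : ℕ) : ballCard d 0 = 1 := by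
  unfold ballCard
  rw [Nat.card_eq_one_iff_unique]
  refine ⟨⟨fun a b => ?_⟩, ⟨⟨[], by simp⟩⟩⟩
  obtain ⟨a, ha⟩ := a
  obtain ⟨b, hb⟩ := b
  have ha' : a = [] := List.length_eq_zero_iff.mp (Nat.le_zero.mp ha)
  have hb' : b = [] := List.length_eq_zero_iff.mp (Nat.le_zero.mp hb)
  subst ha' hb'
  rfl

/-- The ball of radius `n + 1` is the root plus `d` copies of the ball of radius `n`. -/
def ballEquiv (d n : ℕ) :
    Option (Fin d × {g : List (Fin d) // g.length ≤ n}) ≃ {g : List (Fin d) // g.length ≤ n + 1} where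
  toFun o := match o with
    | none => ⟨[], by simp⟩
    | some (e, g) => ⟨e :: g.1, by simpa using g.2⟩
  invFun g := match g with
    | ⟨[], _⟩ => none
    | ⟨e :: g, h⟩ => some (e, ⟨g, by simpa using h⟩)
  left_inv o := by
    rcases o with _ | ⟨e, g, hg⟩ <;> rfl
  right_inv g := by
    rcases g with ⟨_ | ⟨e, g⟩, hg⟩ <;> rfl

lemma ballCard_succ (d n : ℕ) : ballCard d (n + 1) = d * ballCard d n + 1 := by
  unfold ballCard
  rw [← Nat.card_congr (ballEquiv d n), Finite.card_option, Nat.card_prod, Nat.card_fin]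

lemma ballCard_formula (d n : ℕ) (hd : 2 ≤ d) :
    (ballCard d n : ℝ) = ((d : ℝ) ^ (n + 1) - 1) / ((d : ℝ) - 1) := by
  have hd1 : (d : ℝ) - 1 ≠ 0 := by
    have : (2 : ℝ) ≤ d := by exact_mod_cast hd
    linarith
  induction n with
  | zero => rw [ballCard_zero]; field_simp; push_cast; ring
  | succ n ih =>
    rw [ballCard_succ]
    push_cast
    rw [ih]
    field_simp
    ring

lemma ballCard_pos (d n : ℕ) : 0 < ballCard d n := by
  cases n with
  | zero => rw [ballCard_zero]; exact one_pos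
  | succ n => rw [ballCard_succ]; omega

/-! ### Counting labelings with prescribed root label -/

section Count

variable (d : ℕ) {k : ℕ} (M : Matrix (Fin k) (Fin k) ℕ)

/-- Restrictions to the ball of radius `n` of labelings in the tree-shift with root label `i`. -/
def rootSet (i : Fin k) (n : ℕ) : Set ({g : List (Fin d) // g.length ≤ n} → Fin k) :=
  restrict n '' {t | t ∈ treeShift d M ∧ t [] = i}

/-- The number of elements of `rootSet`. -/
noncomputable def c (i : Fin k) (n : ℕ) : ℕ := (rootSet d M i n).ncard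

/-- A label is alive if it is the root label of some labeling in the tree-shift. -/
def Alive (i : Fin k) : Prop := ∃ t ∈ treeShift d M, t [] = i

lemma rootSet_root {i : Fin k} {n : ℕ} {f : {g : List (Fin d) // g.length ≤ n} → Fin k}
    (hf : f ∈ rootSet d M i n) : f ⟨[], by simp⟩ = i := by
  obtain ⟨t, ⟨_, ht⟩, rfl⟩ := hf
  exact ht

lemma patternCount_eq (n : ℕ) : patternCount d M n = ∑ i, c d M i n := by
  classical
  unfold patternCount c
  have h : restrict n '' treeShift d M = ⋃ i, rootSet d M i n := by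
    ext f
    simp only [Set.mem_iUnion, rootSet, Set.mem_image, Set.mem_ofPred_eq]
    constructor
    · rintro ⟨t, ht, rfl⟩
      exact ⟨t [], t, ⟨ht, rfl⟩, rfl⟩
    · rintro ⟨i, t, ⟨ht, _⟩, rfl⟩
      exact ⟨t, ht, rfl⟩
  rw [h, Set.ncard_iUnion_of_finite (fun i => Set.toFinite _)]
  · exact finsum_eq_sum_of_fintype _
  · intro i j hij
    rw [Function.onFun, Set.disjoint_left]
    intro f hf hf'
    exact hij ((rootSet_root d M hf).symm.trans (rootSet_root d M hf'))


lemma c_zero_of_alive {i : Fin k} (hi : Alive d M i) : c d M i 0 = 1 := by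
  unfold c
  rw [Set.ncard_eq_one]
  obtain ⟨t, ht, hti⟩ := hi
  refine ⟨restrict 0 t, ?_⟩
  ext f
  simp only [Set.mem_singleton_iff]
  constructor
  · intro hf
    funext g
    have hg : g = ⟨[], by simp⟩ := by
      apply Subtype.ext
      exact List.length_eq_zero_iff.mp (Nat.le_zero.mp g.2)
    subst hg
    rw [rootSet_root d M hf]
    exact hti.symm
  · rintro rfl
    exact ⟨t, ⟨ht, hti⟩, rfl⟩

lemma c_eq_zero_of_not_alive {i : Fin k} (hi : ¬ Alive d M i) (n : ℕ) : c d M i n = 0 := by
  unfold c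
  rw [Set.ncard_eq_zero]
  rw [Set.eq_empty_iff_forall_notMem]
  rintro f ⟨t, ⟨ht, hti⟩, rfl⟩
  exact hi ⟨t, ht, hti⟩

lemma c_pos_of_alive {i : Fin k} (hi : Alive d M i) (n : ℕ) : 1 ≤ c d M i n := by
  unfold c
  rw [Nat.one_le_iff_ne_zero, Ne, Set.ncard_eq_zero, ← Ne, ← Set.nonempty_iff_ne_empty]
  obtain ⟨t, ht, hti⟩ := hi
  exact ⟨restrict n t, t, ⟨ht, hti⟩, rfl⟩

/-- Patterns of radius `n` whose root label is a successor of `i`. -/
def succSet (i : Fin k) (n : ℕ) : Set ({g : List (Fin d) // g.length ≤ n} → Fin k) :=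
  {f | ∃ j, M i j = 1 ∧ f ∈ rootSet d M j n}

/-- The subtree of a labeling at the child `e` of the root. -/
lemma subtree_mem {t : List (Fin d) → Fin k} (ht : t ∈ treeShift d M) (e : Fin d) :
    (fun g => t (e :: g)) ∈ treeShift d M := by
  intro g i
  simpa using ht (e :: g) i

/-- Glue labelings at the children of the root. -/
lemma glue_mem {i : Fin k} {s : Fin d → List (Fin d) → Fin k}
    (hs : ∀ e, s e ∈ treeShift d M) (hi : ∀ e, M i (s e []) = 1) :
    (fun g : List (Fin d) => match g with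
      | [] => i
      | e :: g => s e g) ∈ treeShift d M := by
  intro g e
  cases g with
  | nil => simpa using hi e
  | cons e' g => simpa using hs e' g e

lemma rootSet_succ_card (i : Fin k) (n : ℕ) :
    c d M i (n + 1) = (succSet d M i n).ncard ^ d := by
  classical
  unfold c
  have key : Nat.card (rootSet d M i (n + 1)) = Nat.card (Fin d → succSet d M i n) := by
    let F : rootSet d M i (n + 1) → (Fin d → succSet d M i n) := fun f e =>
      ⟨fun g => f.1 ⟨e :: g.1, by simpa using g.2⟩, by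
        obtain ⟨f, t, ⟨ht, hti⟩, rfl⟩ := f
        refine ⟨t [e], ?_, (fun g => t (e :: g)), ⟨subtree_mem d M ht e, rfl⟩, rfl⟩
        have := ht [] e
        rw [hti] at this
        simpa using this⟩
    apply Nat.card_congr
    apply Equiv.ofBijective F
    constructor
    · rintro ⟨f, hf⟩ ⟨f', hf'⟩ h
      apply Subtype.ext
      funext g
      obtain ⟨g, hg⟩ := g
      cases g with
      | nil => exact (rootSet_root d M hf).trans (rootSet_root d M hf').symm
      | cons e g =>
        have h1 := congrFun (congrArg Subtype.val (congrFun h e)) ⟨g, by simpa using hg⟩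
        exact h1
    · intro φ
      have h1 : ∀ e : Fin d, ∃ s ∈ treeShift d M, M i (s []) = 1 ∧ restrict n s = (φ e).1 := by
        intro e
        obtain ⟨j, hj, s, ⟨hs, hsj⟩, hr⟩ := (φ e).2
        exact ⟨s, hs, by rw [hsj]; exact hj, hr⟩
      choose s hs hsi hr using h1
      refine ⟨⟨restrict (n + 1) _, _, ⟨glue_mem d M hs hsi, rfl⟩, rfl⟩, ?_⟩
      funext e
      apply Subtype.ext
      rw [← hr e]
      rfl
  rw [Nat.card_coe_set_eq, Nat.card_fun, Nat.card_coe_set_eq, Nat.card_fin] at key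
  exact key

lemma succSet_ncard (i : Fin k) (n : ℕ) :
    (succSet d M i n).ncard = ∑ j with M i j = 1, c d M j n := by
  classical
  have h : succSet d M i n = ⋃ j : {j // M i j = 1}, rootSet d M j.1 n := by
    ext f
    simp only [succSet, Set.mem_iUnion, Set.mem_ofPred_eq, Subtype.exists, exists_prop]
  rw [h, Set.ncard_iUnion_of_finite (fun i => Set.toFinite _)]
  · rw [finsum_eq_sum_of_fintype]
    unfold c
    rw [Finset.sum_subtype (p := fun j => M i j = 1)]
    intro x
    simp
  · intro i j hij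
    rw [Function.onFun, Set.disjoint_left]
    intro f hf hf'
    exact hij (Subtype.ext ((rootSet_root d M hf).symm.trans (rootSet_root d M hf')))

/-- The recursion for the counts. -/
lemma c_succ (i : Fin k) (n : ℕ) :
    c d M i (n + 1) = (∑ j with M i j = 1, c d M j n) ^ d := by
  rw [rootSet_succ_card, succSet_ncard]

/-- The alive successors of a label. -/
noncomputable def succs (i : Fin k) : Finset (Fin k) := by
  classical
  exact Finset.univ.filter (fun j => M i j = 1 ∧ Alive d M j)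

lemma mem_succs {i j : Fin k} : j ∈ succs d M i ↔ M i j = 1 ∧ Alive d M j := by
  classical
  simp [succs]

lemma c_succ' (i : Fin k) (n : ℕ) :
    c d M i (n + 1) = (∑ j ∈ succs d M i, c d M j n) ^ d := by
  classical
  rw [c_succ]
  congr 1
  symm
  apply Finset.sum_subset
  · intro j hj
    rw [mem_succs] at hj
    simpa using hj.1
  · intro j hj hj'
    apply c_eq_zero_of_not_alive
    intro h
    apply hj'
    rw [mem_succs]
    exact ⟨by simpa using hj, h⟩


/-- Alive labels that are the end point of a walk of length `n` of alive labels. -/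
def reach : ℕ → Set (Fin k)
  | 0 => {j | Alive d M j}
  | n + 1 => {j | Alive d M j ∧ ∃ i ∈ reach n, M i j = 1}

lemma reach_alive {n : ℕ} {j : Fin k} (h : j ∈ reach d M n) : Alive d M j := by
  cases n with
  | zero => exact h
  | succ n => exact h.1

lemma reach_succ_subset (n : ℕ) : reach d M (n + 1) ⊆ reach d M n := by
  induction n with
  | zero => intro j hj; exact hj.1
  | succ n ih =>
    rintro j ⟨hj, i, hi, hij⟩
    exact ⟨hj, i, ih hi, hij⟩

lemma reach_antitone : Antitone (reach d M) := antitone_nat_of_succ_le (reach_succ_subset d M)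

/-- The persistent labels. -/
def pers : Set (Fin k) := {j | ∀ n, j ∈ reach d M n}

lemma exists_reach_subset_pers : ∃ L, reach d M L ⊆ pers d M := by
  classical
  have h : ∀ j : Fin k, ∃ n, j ∉ pers d M → j ∉ reach d M n := by
    intro j
    by_cases hj : j ∈ pers d M
    · exact ⟨0, fun h => absurd hj h⟩
    · have : ∃ n, j ∉ reach d M n := by
        by_contra hcon
        push Not at hcon
        exact hj hcon
      obtain ⟨n, hn⟩ := this
      exact ⟨n, fun _ => hn⟩
  choose n hn using h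
  refine ⟨Finset.univ.sup n, ?_⟩
  intro j hj
  by_contra hcon
  exact hn j hcon (reach_antitone d M (Finset.le_sup (Finset.mem_univ j)) hj)

lemma pers_succ {i j : Fin k} (hi : i ∈ pers d M) (hj : j ∈ succs d M i) : j ∈ pers d M := by
  intro n
  rw [mem_succs] at hj
  cases n with
  | zero => exact hj.2
  | succ n => exact ⟨hj.2, i, hi n, hj.1⟩

lemma pers_alive {i : Fin k} (hi : i ∈ pers d M) : Alive d M i := hi 0

/-- Lower bound: a large count at a persistent label propagates. -/
lemma lower_bound (n : ℕ) : ∀ (i : Fin k) (m : ℕ), i ∈ reach d M n →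
    ∃ i₀ : Fin k, (c d M i m) ^ (d ^ n) ≤ c d M i₀ (m + n) := by
  induction n with
  | zero =>
    intro i m _
    exact ⟨i, by simp⟩
  | succ n ih =>
    rintro i m ⟨hi, i', hi', hii'⟩
    obtain ⟨i₀, h₀⟩ := ih i' (m + 1) hi'
    refine ⟨i₀, ?_⟩
    have h1 : c d M i m ^ d ≤ c d M i' (m + 1) := by
      rw [c_succ']
      apply Nat.pow_le_pow_left
      exact Finset.single_le_sum (f := fun j => c d M j m) (fun _ _ => Nat.zero_le _)
        ((mem_succs d M).2 ⟨hii', hi⟩)
    calc c d M i m ^ d ^ (n + 1) = (c d M i m ^ d) ^ d ^ n := by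
          rw [← pow_mul]; congr 1; ring
      _ ≤ (c d M i' (m + 1)) ^ d ^ n := Nat.pow_le_pow_left h1 _
      _ ≤ c d M i₀ (m + 1 + n) := h₀
      _ = c d M i₀ (m + (n + 1)) := by congr 1; ring

lemma c_le_patternCount (i : Fin k) (n : ℕ) : c d M i n ≤ patternCount d M n := by
  rw [patternCount_eq]
  exact Finset.single_le_sum (f := fun j => c d M j n) (fun _ _ => Nat.zero_le _)
    (Finset.mem_univ i)

lemma patternCount_lower {i : Fin k} (hi : i ∈ pers d M) (m n : ℕ) :
    (c d M i m) ^ (d ^ n) ≤ patternCount d M (m + n) := by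
  obtain ⟨i₀, h⟩ := lower_bound d M n i m (hi n)
  exact h.trans (c_le_patternCount d M i₀ _)

/-- Upper bound: the counts are controlled by the counts at persistent labels. -/
lemma upper_bound (hk : 1 ≤ k) : ∃ L C : ℕ, 1 ≤ C ∧ ∀ (n U : ℕ),
    (∀ i ∈ pers d M, c d M i n ≤ U) → patternCount d M (n + L) ≤ C * U ^ (d ^ L) := by
  obtain ⟨L, hL⟩ := exists_reach_subset_pers d M
  -- exponents
  have main : ∀ m : ℕ, m ≤ L → ∃ C : ℕ, 1 ≤ C ∧ ∀ (n U : ℕ), (∀ i ∈ pers d M, c d M i n ≤ U) →
      ∀ i ∈ reach d M (L - m), c d M i (n + m) ≤ C * U ^ (d ^ m) := by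
    intro m
    induction m with
    | zero =>
      intro _
      refine ⟨1, le_rfl, ?_⟩
      intro n U hU i hi
      simpa using hU i (hL hi)
    | succ m ih =>
      intro hm
      obtain ⟨C, hC1, hC⟩ := ih (by omega)
      refine ⟨(k * C) ^ d, Nat.one_le_pow _ _ (by positivity), ?_⟩
      intro n U hU i hi
      rw [← add_assoc, c_succ']
      have h1 : ∑ j ∈ succs d M i, c d M j (n + m) ≤ k * (C * U ^ (d ^ m)) := by
        calc ∑ j ∈ succs d M i, c d M j (n + m) ≤ ∑ j ∈ succs d M i, C * U ^ (d ^ m) := by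
              apply Finset.sum_le_sum
              intro j hj
              apply hC n U hU
              rw [mem_succs] at hj
              have : L - m = (L - (m + 1)) + 1 := by omega
              rw [this]
              exact ⟨hj.2, i, hi, hj.1⟩
          _ = (succs d M i).card * (C * U ^ (d ^ m)) := by rw [Finset.sum_const, smul_eq_mul]
          _ ≤ k * (C * U ^ (d ^ m)) := by
              apply Nat.mul_le_mul_right
              simpa using Finset.card_le_univ (succs d M i)
      calc (∑ j ∈ succs d M i, c d M j (n + m)) ^ d ≤ (k * (C * U ^ (d ^ m))) ^ d :=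
            Nat.pow_le_pow_left h1 d
        _ = (k * C) ^ d * U ^ (d ^ (m + 1)) := by
            rw [← mul_assoc, mul_pow, ← pow_mul, pow_succ]
  obtain ⟨C, hC1, hC⟩ := main L le_rfl
  refine ⟨L, k * C, Nat.one_le_iff_ne_zero.mpr (by positivity), ?_⟩
  intro n U hU
  rw [patternCount_eq]
  calc ∑ i, c d M i (n + L) ≤ ∑ _i : Fin k, C * U ^ (d ^ L) := by
        apply Finset.sum_le_sum
        intro i _
        by_cases hi : Alive d M i
        · apply hC n U hU
          rw [Nat.sub_self]
          exact hi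
        · rw [c_eq_zero_of_not_alive d M hi]
          exact Nat.zero_le _
    _ = k * C * U ^ (d ^ L) := by
        rw [Finset.sum_const, smul_eq_mul, Finset.card_univ, Fintype.card_fin, mul_assoc]


end Count

/-! ### The golden mean recursion -/

/-- The pair `(x_n, y_n)` of the golden mean recursion on the `d`-tree. -/
def gm (d : ℕ) : ℕ → ℕ × ℕ
  | 0 => (1, 1)
  | n + 1 => (((gm d n).1 + (gm d n).2) ^ d, (gm d n).1 ^ d)

lemma gm_succ_fst (d n : ℕ) : (gm d (n + 1)).1 = ((gm d n).1 + (gm d n).2) ^ d := rfl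
lemma gm_succ_snd (d n : ℕ) : (gm d (n + 1)).2 = (gm d n).1 ^ d := rfl

lemma gm_le (d n : ℕ) : (gm d n).2 ≤ (gm d n).1 := by
  cases n with
  | zero => exact le_rfl
  | succ n =>
    rw [gm_succ_fst, gm_succ_snd]
    exact Nat.pow_le_pow_left (Nat.le_add_right _ _) d

lemma gm_pos (d n : ℕ) : 1 ≤ (gm d n).1 := by
  induction n with
  | zero => exact le_rfl
  | succ n ih =>
    rw [gm_succ_fst]
    exact Nat.one_le_pow _ _ (by omega)

section Dichotomy

variable (d : ℕ) {k : ℕ} (M : Matrix (Fin k) (Fin k) ℕ)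

/-- If no persistent label has three alive successors, and no persistent label has two distinct
successors each having at least two alive successors, then the counts at persistent labels are
dominated by the golden mean recursion. -/
lemma c_le_gm (h3 : ∀ i ∈ pers d M, (succs d M i).card ≤ 2)
    (h2 : ∀ i ∈ pers d M, ∀ j ∈ succs d M i, ∀ j' ∈ succs d M i, j ≠ j' →
      (succs d M j).card ≤ 1 ∨ (succs d M j').card ≤ 1) (n : ℕ) :
    ∀ i ∈ pers d M, c d M i n ≤ (gm d n).1 ∧
      ((succs d M i).card ≤ 1 → c d M i n ≤ (gm d n).2) := by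
  classical
  induction n with
  | zero =>
    intro i hi
    rw [c_zero_of_alive d M (pers_alive d M hi)]
    exact ⟨le_rfl, fun _ => le_rfl⟩
  | succ n ih =>
    intro i hi
    have key1 : (succs d M i).card ≤ 1 → c d M i (n + 1) ≤ (gm d (n + 1)).2 := by
      intro hc
      rw [c_succ', gm_succ_snd]
      apply Nat.pow_le_pow_left
      rcases Nat.le_one_iff_eq_zero_or_eq_one.mp hc with h | h
      · rw [Finset.card_eq_zero] at h
        rw [h]
        simp
      · obtain ⟨j, hj⟩ := Finset.card_eq_one.mp h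
        rw [hj, Finset.sum_singleton]
        exact (ih j (pers_succ d M hi (by rw [hj]; simp))).1
    refine ⟨?_, key1⟩
    by_cases hc : (succs d M i).card ≤ 1
    · exact (key1 hc).trans (gm_le d (n + 1))
    · have hcard : (succs d M i).card = 2 := le_antisymm (h3 i hi) (by omega)
      obtain ⟨j, j', hjj', hs⟩ := Finset.card_eq_two.mp hcard
      have hj : j ∈ succs d M i := by rw [hs]; simp
      have hj' : j' ∈ succs d M i := by rw [hs]; simp
      rw [c_succ', gm_succ_fst, hs, Finset.sum_pair hjj']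
      apply Nat.pow_le_pow_left
      have ihj := ih j (pers_succ d M hi hj)
      have ihj' := ih j' (pers_succ d M hi hj')
      rcases h2 i hi j hj j' hj' hjj' with h | h
      · have := ihj.2 h
        have := ihj'.1
        omega
      · have := ihj'.2 h
        have := ihj.1
        omega

/-- The trichotomy. -/
lemma trichotomy :
    (∃ i ∈ pers d M, 3 ^ d ≤ c d M i 1) ∨
    (∃ i ∈ pers d M, 2 ^ ((d + 1) * d) ≤ c d M i 2) ∨
    (∀ n, ∀ i ∈ pers d M, c d M i n ≤ (gm d n).1) := by
  classical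
  have hc1 : ∀ i, c d M i 1 = (succs d M i).card ^ d := by
    intro i
    rw [c_succ']
    congr 1
    rw [Finset.sum_congr rfl (fun j hj => c_zero_of_alive d M ((mem_succs d M).1 hj).2)]
    simp
  by_cases h3 : ∀ i ∈ pers d M, (succs d M i).card ≤ 2
  · by_cases h2 : ∀ i ∈ pers d M, ∀ j ∈ succs d M i, ∀ j' ∈ succs d M i, j ≠ j' →
      (succs d M j).card ≤ 1 ∨ (succs d M j').card ≤ 1
    · right; right
      intro n i hi
      exact (c_le_gm d M h3 h2 n i hi).1
    · right; left
      push Not at h2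
      obtain ⟨i, hi, j, hj, j', hj', hne, h1, h1'⟩ := h2
      refine ⟨i, hi, ?_⟩
      rw [c_succ', pow_mul]
      apply Nat.pow_le_pow_left
      have hsub : ({j, j'} : Finset (Fin k)) ⊆ succs d M i := by
        intro x hx
        simp only [Finset.mem_insert, Finset.mem_singleton] at hx
        rcases hx with rfl | rfl
        · exact hj
        · exact hj'
      calc 2 ^ (d + 1) = 2 ^ d + 2 ^ d := by ring
        _ ≤ c d M j 1 + c d M j' 1 := by
            rw [hc1, hc1]
            exact Nat.add_le_add (Nat.pow_le_pow_left h1 d) (Nat.pow_le_pow_left h1' d)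
        _ = ∑ x ∈ ({j, j'} : Finset (Fin k)), c d M x 1 := by rw [Finset.sum_pair hne]
        _ ≤ ∑ x ∈ succs d M i, c d M x 1 := Finset.sum_le_sum_of_subset hsub
  · left
    push Not at h3
    obtain ⟨i, hi, h⟩ := h3
    refine ⟨i, hi, ?_⟩
    rw [hc1]
    exact Nat.pow_le_pow_left h d

end Dichotomy

/-! ### Limits -/

lemma tendsto_inv_pow (d : ℕ) (hd : 2 ≤ d) :
    Tendsto (fun N : ℕ => ((d : ℝ) ^ N)⁻¹) atTop (𝓝 0) := by
  have h2 : (1 : ℝ) < d := by
    have : (2 : ℝ) ≤ d := by exact_mod_cast hd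
    linarith
  exact tendsto_inv_atTop_zero.comp (tendsto_pow_atTop_atTop_of_one_lt h2)

lemma tendsto_pow_div_ball (d : ℕ) (hd : 2 ≤ d) :
    Tendsto (fun N : ℕ => (d : ℝ) ^ N / (ballCard d N : ℝ)) atTop
      (𝓝 (((d : ℝ) - 1) / d)) := by
  have h2 : (2 : ℝ) ≤ d := by exact_mod_cast hd
  have h0 : Tendsto (fun N : ℕ => ((d : ℝ) - 1) / ((d : ℝ) - ((d : ℝ) ^ N)⁻¹)) atTop
      (𝓝 (((d : ℝ) - 1) / ((d : ℝ) - 0))) := by
    apply Tendsto.div tendsto_const_nhds
    · exact tendsto_const_nhds.sub (tendsto_inv_pow d hd)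
    · simp; omega
  rw [sub_zero] at h0
  refine h0.congr ?_
  intro N
  rw [ballCard_formula d N hd]
  have hp : (1 : ℝ) ≤ (d : ℝ) ^ N := one_le_pow₀ (by linarith)
  have h1 : (d : ℝ) ^ (N + 1) - 1 ≠ 0 := by
    rw [pow_succ]
    nlinarith
  have h3 : (d : ℝ) - ((d : ℝ) ^ N)⁻¹ ≠ 0 := by
    have : ((d : ℝ) ^ N)⁻¹ ≤ 1 := inv_le_one_of_one_le₀ hp
    linarith
  have h4 : (d : ℝ) - 1 ≠ 0 := by linarith
  have h5 : (d : ℝ) ^ N ≠ 0 := by positivity
  rw [div_eq_div_iff h3 (by positivity), pow_succ]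
  field_simp

lemma tendsto_const_div_ball (d : ℕ) (hd : 2 ≤ d) (C : ℝ) :
    Tendsto (fun N : ℕ => C / (ballCard d N : ℝ)) atTop (𝓝 0) := by
  have h := ((tendsto_inv_pow d hd).const_mul C).mul (tendsto_pow_div_ball d hd)
  rw [mul_zero, zero_mul] at h
  refine h.congr ?_
  intro N
  have h5 : (d : ℝ) ^ N ≠ 0 := by
    have : (2 : ℝ) ≤ d := by exact_mod_cast hd
    positivity
  have : (ballCard d N : ℝ) ≠ 0 := by exact_mod_cast (ballCard_pos d N).ne'
  field_simp

section Limits

variable (d : ℕ) {k : ℕ} (M : Matrix (Fin k) (Fin k) ℕ)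

lemma le_entropy (hd : 2 ≤ d) {h : ℝ} (hh : IsEntropy d M h) {i : Fin k}
    (hi : i ∈ pers d M) (m B : ℕ) (hB1 : 1 ≤ B) (hB : B ≤ c d M i m) :
    ((d : ℝ) - 1) / d * (Real.log B / (d : ℝ) ^ m) ≤ h := by
  have h2 : (2 : ℝ) ≤ d := by exact_mod_cast hd
  have hlim : Tendsto (fun N : ℕ => (d : ℝ) ^ N / (ballCard d N : ℝ) *
      (Real.log B / (d : ℝ) ^ m)) atTop
      (𝓝 (((d : ℝ) - 1) / d * (Real.log B / (d : ℝ) ^ m))) :=
    (tendsto_pow_div_ball d hd).mul_const _
  refine le_of_tendsto_of_tendsto hlim hh ?_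
  filter_upwards [eventually_ge_atTop m] with N hN
  obtain ⟨n, rfl⟩ := Nat.exists_eq_add_of_le hN
  have h1 : (B : ℝ) ^ (d ^ n) ≤ (patternCount d M (m + n) : ℝ) := by
    have := (Nat.pow_le_pow_left hB (d ^ n)).trans (patternCount_lower d M hi m n)
    exact_mod_cast this
  have hBpos : (0 : ℝ) < B := by exact_mod_cast hB1
  have h3 : (d : ℝ) ^ n * Real.log B ≤ Real.log (patternCount d M (m + n)) := by
    have := Real.log_le_log (by positivity) h1
    rw [Real.log_pow] at this
    push_cast at this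
    exact this
  have hb : (0 : ℝ) < ballCard d (m + n) := by exact_mod_cast ballCard_pos d (m + n)
  have h5 : (d : ℝ) ^ m ≠ 0 := by positivity
  rw [pow_add, le_div_iff₀ hb]
  calc (d : ℝ) ^ m * (d : ℝ) ^ n / (ballCard d (m + n) : ℝ) * (Real.log B / (d : ℝ) ^ m)
        * (ballCard d (m + n) : ℝ) = (d : ℝ) ^ n * Real.log B := by
        field_simp
    _ ≤ _ := h3

lemma entropy_le (hd : 2 ≤ d) (hk : 1 ≤ k) (hne : (treeShift d M).Nonempty)
    {h : ℝ} (hh : IsEntropy d M h) (U : ℕ → ℕ) (hU1 : ∀ n, 1 ≤ U n)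
    (hU : ∀ n, ∀ i ∈ pers d M, c d M i n ≤ U n) (A : ℝ) (n₀ : ℕ)
    (hA : ∀ n, n₀ ≤ n → Real.log (U n) ≤ A * (d : ℝ) ^ n) :
    h ≤ ((d : ℝ) - 1) / d * A := by
  have h2 : (2 : ℝ) ≤ d := by exact_mod_cast hd
  obtain ⟨L, C, hC1, hC⟩ := upper_bound d M hk
  have hlim : Tendsto (fun N : ℕ => Real.log C / (ballCard d N : ℝ) +
      (d : ℝ) ^ N / (ballCard d N : ℝ) * A) atTop
      (𝓝 (0 + ((d : ℝ) - 1) / d * A)) :=
    (tendsto_const_div_ball d hd _).add ((tendsto_pow_div_ball d hd).mul_const _)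
  rw [zero_add] at hlim
  refine le_of_tendsto_of_tendsto hh hlim ?_
  filter_upwards [eventually_ge_atTop (n₀ + L)] with N hN
  obtain ⟨n, rfl⟩ : ∃ n, N = n + L := ⟨N - L, by omega⟩
  have hn : n₀ ≤ n := by omega
  have h1 : (patternCount d M (n + L) : ℝ) ≤ C * (U n : ℝ) ^ (d ^ L) := by
    exact_mod_cast hC n (U n) (hU n)
  have hUpos : (0 : ℝ) < U n := by exact_mod_cast hU1 n
  have hCpos : (0 : ℝ) < C := by exact_mod_cast hC1
  have hppos : (0 : ℝ) < patternCount d M (n + L) := by
    obtain ⟨t, ht⟩ := hne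
    have := (c_pos_of_alive d M ⟨t, ht, rfl⟩ (n + L)).trans (c_le_patternCount d M (t []) (n + L))
    exact_mod_cast this
  have h3 : Real.log (patternCount d M (n + L)) ≤ Real.log C + A * (d : ℝ) ^ (n + L) := by
    have := Real.log_le_log hppos h1
    rw [Real.log_mul hCpos.ne' (by positivity), Real.log_pow] at this
    push_cast at this
    calc Real.log (patternCount d M (n + L)) ≤ Real.log C + (d : ℝ) ^ L * Real.log (U n) := this
      _ ≤ Real.log C + (d : ℝ) ^ L * (A * (d : ℝ) ^ n) := by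
          gcongr
          exact hA n hn
      _ = _ := by ring
  have hb : (0 : ℝ) < ballCard d (n + L) := by exact_mod_cast ballCard_pos d (n + L)
  rw [div_le_iff₀ hb]
  calc Real.log (patternCount d M (n + L)) ≤ Real.log C + A * (d : ℝ) ^ (n + L) := h3
    _ = _ := by field_simp

end Limits

/-! ### The golden mean bound -/

lemma gm_bound_ge_three (d : ℕ) (hd : 3 ≤ d) : ∃ A : ℝ,
    A < ((d : ℝ) + 1) / d * Real.log 2 ∧
    ∀ n, 2 ≤ n → Real.log ((gm d n).1 : ℝ) ≤ A * (d : ℝ) ^ n := by
  have h3 : (3 : ℝ) ≤ d := by exact_mod_cast hd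
  have hl2 : (0 : ℝ) < Real.log 2 := Real.log_pos (by norm_num)
  have hd0 : (0 : ℝ) < d := by linarith
  have hd1 : (0 : ℝ) < (d : ℝ) - 1 := by linarith
  set K : ℝ := (d : ℝ) * Real.log (2 ^ d + 1) + d / (d - 1) * Real.log 2 with hK
  refine ⟨K / (d : ℝ) ^ 2, ?_, ?_⟩
  · have e1 : Real.log (2 ^ d + 1) ≤ d * Real.log 2 + 1 / 8 := by
      have hp : (0 : ℝ) < 2 ^ d := by positivity
      have : (2 : ℝ) ^ d + 1 = 2 ^ d * (1 + (2 ^ d)⁻¹) := by field_simp
      rw [this, Real.log_mul hp.ne' (by positivity), Real.log_pow]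
      have e2 : Real.log (1 + (2 ^ d)⁻¹) ≤ (2 ^ d)⁻¹ := by
        have := Real.log_le_sub_one_of_pos (show (0 : ℝ) < 1 + (2 ^ d)⁻¹ by positivity)
        linarith
      have e3 : ((2 : ℝ) ^ d)⁻¹ ≤ 1 / 8 := by
        rw [one_div]
        apply inv_anti₀ (by norm_num)
        calc (8 : ℝ) = 2 ^ 3 := by norm_num
          _ ≤ 2 ^ d := pow_le_pow_right₀ (by norm_num) hd
      linarith
    have e4 : 1 / ((d : ℝ) - 1) * Real.log 2 ≤ 1 / 2 * Real.log 2 := by
      gcongr
      linarith
    have e5 : (1 : ℝ) / 8 < 1 / 2 * Real.log 2 := by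
      have := Real.log_two_gt_d9
      linarith
    have e6 : K < d * ((d + 1) * Real.log 2) := by
      have : K = d * (Real.log (2 ^ d + 1) + 1 / (d - 1) * Real.log 2) := by
        rw [hK]; ring
      rw [this]
      apply mul_lt_mul_of_pos_left _ hd0
      linarith
    rw [div_lt_iff₀ (by positivity)]
    calc K < d * ((d + 1) * Real.log 2) := e6
      _ = _ := by field_simp
  · have main : ∀ m : ℕ, Real.log ((gm d (m + 2)).1 : ℝ) + d / (d - 1) * Real.log 2
        ≤ (d : ℝ) ^ m * K := by
      intro m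
      induction m with
      | zero =>
        have : (gm d (0 + 2)).1 = (2 ^ d + 1) ^ d := by
          show ((1 + 1) ^ d + 1 ^ d) ^ d = (2 ^ d + 1) ^ d
          rw [one_pow]
        rw [this, hK]
        push_cast
        rw [Real.log_pow]
        simp
      | succ m ih =>
        have h1 : ((gm d (m + 1 + 2)).1 : ℝ) ≤ (2 * ((gm d (m + 2)).1 : ℝ)) ^ d := by
          have : (gm d (m + 1 + 2)).1 ≤ (2 * (gm d (m + 2)).1) ^ d := by
            show (gm d (m + 2 + 1)).1 ≤ _
            rw [gm_succ_fst]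
            apply Nat.pow_le_pow_left
            have := gm_le d (m + 2)
            omega
          exact_mod_cast this
        have hx : (0 : ℝ) < (gm d (m + 2)).1 := by exact_mod_cast gm_pos d (m + 2)
        have hx' : (0 : ℝ) < (gm d (m + 1 + 2)).1 := by exact_mod_cast gm_pos d (m + 1 + 2)
        have h4 := Real.log_le_log hx' h1
        rw [Real.log_pow, Real.log_mul (by norm_num) hx.ne'] at h4
        calc Real.log ((gm d (m + 1 + 2)).1 : ℝ) + d / (d - 1) * Real.log 2
            ≤ d * (Real.log 2 + Real.log ((gm d (m + 2)).1 : ℝ)) + d / (d - 1) * Real.log 2 := by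
              linarith
          _ = d * (Real.log ((gm d (m + 2)).1 : ℝ) + d / (d - 1) * Real.log 2) := by
              field_simp
              ring
          _ ≤ d * ((d : ℝ) ^ m * K) := by gcongr
          _ = (d : ℝ) ^ (m + 1) * K := by ring
    intro n hn
    obtain ⟨m, rfl⟩ : ∃ m, n = m + 2 := ⟨n - 2, by omega⟩
    have := main m
    have h5 : 0 ≤ d / (d - 1) * Real.log 2 := by positivity
    calc Real.log ((gm d (m + 2)).1 : ℝ) ≤ (d : ℝ) ^ m * K := by linarith
      _ = K / (d : ℝ) ^ 2 * (d : ℝ) ^ (m + 2) := by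
          field_simp
          ring

lemma gm_ratio (m : ℕ) : 36 * (gm 2 (m + 3)).1 ≤ 100 * (gm 2 (m + 3)).2 ∧
    100 * (gm 2 (m + 3)).2 ≤ 55 * (gm 2 (m + 3)).1 := by
  induction m with
  | zero => decide
  | succ m ih =>
    have e1 : (gm 2 (m + 1 + 3)).1 = ((gm 2 (m + 3)).1 + (gm 2 (m + 3)).2) ^ 2 := rfl
    have e2 : (gm 2 (m + 1 + 3)).2 = (gm 2 (m + 3)).1 ^ 2 := rfl
    rw [e1, e2]
    set x := (gm 2 (m + 3)).1
    set y := (gm 2 (m + 3)).2
    obtain ⟨h1, h2⟩ := ih
    constructor
    · have : 100 * (x + y) ≤ 155 * x := by omega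
      nlinarith
    · have : 136 * x ≤ 100 * (x + y) := by omega
      nlinarith

lemma gm_bound_two : ∃ A : ℝ,
    A < ((2 : ℝ) + 1) / 2 * Real.log 2 ∧
    ∀ n, 3 ≤ n → Real.log ((gm 2 n).1 : ℝ) ≤ A * (2 : ℝ) ^ n := by
  set K : ℝ := Real.log 1681 + 2 * Real.log (155 / 100) with hK
  refine ⟨K / 8, ?_, ?_⟩
  · have e1 : K = Real.log (1681 * (155 / 100) ^ 2) := by
      rw [hK, Real.log_mul (by norm_num) (by norm_num), Real.log_pow]
      norm_num
    have e2 : Real.log (1681 * (155 / 100) ^ 2) < Real.log (2 ^ 12) := by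
      apply Real.log_lt_log (by norm_num)
      norm_num
    rw [Real.log_pow] at e2
    rw [e1]
    push_cast at e2
    linarith
  · have main : ∀ m : ℕ, Real.log ((gm 2 (m + 3)).1 : ℝ) + 2 * Real.log (155 / 100)
        ≤ (2 : ℝ) ^ m * K := by
      intro m
      induction m with
      | zero =>
        have : (gm 2 (0 + 3)).1 = 1681 := by decide
        rw [this, hK]
        push_cast
        simp
      | succ m ih =>
        have hr := (gm_ratio m).2
        have h1 : ((gm 2 (m + 1 + 3)).1 : ℝ) ≤ (155 / 100 * ((gm 2 (m + 3)).1 : ℝ)) ^ 2 := by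
          have e1 : (gm 2 (m + 1 + 3)).1 = ((gm 2 (m + 3)).1 + (gm 2 (m + 3)).2) ^ 2 := rfl
          rw [e1]
          push_cast
          have hr' : (100 : ℝ) * (gm 2 (m + 3)).2 ≤ 55 * (gm 2 (m + 3)).1 := by exact_mod_cast hr
          gcongr
          linarith
        have hx : (0 : ℝ) < (gm 2 (m + 3)).1 := by exact_mod_cast gm_pos 2 (m + 3)
        have hx' : (0 : ℝ) < (gm 2 (m + 1 + 3)).1 := by exact_mod_cast gm_pos 2 (m + 1 + 3)
        have h4 := Real.log_le_log hx' h1
        rw [Real.log_pow, Real.log_mul (by norm_num) hx.ne'] at h4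
        push_cast at h4
        calc Real.log ((gm 2 (m + 1 + 3)).1 : ℝ) + 2 * Real.log (155 / 100)
            ≤ 2 * (Real.log ((gm 2 (m + 3)).1 : ℝ) + 2 * Real.log (155 / 100)) := by
              linarith
          _ ≤ 2 * ((2 : ℝ) ^ m * K) := by gcongr
          _ = (2 : ℝ) ^ (m + 1) * K := by ring
    intro n hn
    obtain ⟨m, rfl⟩ : ∃ m, n = m + 3 := ⟨n - 3, by omega⟩
    have := main m
    have h5 : 0 ≤ 2 * Real.log (155 / 100) := by
      have := Real.log_nonneg (show (1 : ℝ) ≤ 155 / 100 by norm_num)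
      linarith
    calc Real.log ((gm 2 (m + 3)).1 : ℝ) ≤ (2 : ℝ) ^ m * K := by linarith
      _ = K / 8 * (2 : ℝ) ^ (m + 3) := by
          rw [pow_add]; ring

lemma gm_bound (d : ℕ) (hd : 2 ≤ d) : ∃ A : ℝ, A < ((d : ℝ) + 1) / d * Real.log 2 ∧
    ∃ n₀, ∀ n, n₀ ≤ n → Real.log ((gm d n).1 : ℝ) ≤ A * (d : ℝ) ^ n := by
  rcases hd.eq_or_lt with rfl | hd
  · obtain ⟨A, h1, h2⟩ := gm_bound_two
    exact ⟨A, by exact_mod_cast h1, 3, by exact_mod_cast h2⟩
  · obtain ⟨A, h1, h2⟩ := gm_bound_ge_three d hd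
    exact ⟨A, h1, 2, h2⟩

/-! ### Existence of the entropy

The limit in the definition of the entropy always exists, so `entropySet d` contains a value for
every binary matrix with nonempty tree-shift.  (This is not used in the main theorem.) -/

theorem entropy_exists (d : ℕ) (hd : 2 ≤ d) {k : ℕ} (M : Matrix (Fin k) (Fin k) ℕ)
    (hne : (treeShift d M).Nonempty) : ∃ h, IsEntropy d M h := by
  classical
  have h2 : (2 : ℝ) ≤ d := by exact_mod_cast hd
  have hd0 : (0 : ℝ) < d := by linarith
  have hd1 : (0 : ℝ) < (d : ℝ) - 1 := by linarith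
  obtain ⟨t, ht⟩ := hne
  have hk : 1 ≤ k := by
    have := (t []).2
    omega
  set m : ℕ → ℕ := fun n => Finset.univ.sup (fun i => c d M i n) with hm
  have hmc : ∀ n i, c d M i n ≤ m n := fun n i =>
    Finset.le_sup (f := fun i => c d M i n) (Finset.mem_univ i)
  have hm1 : ∀ n, 1 ≤ m n := fun n => (c_pos_of_alive d M ⟨t, ht, rfl⟩ n).trans (hmc n (t []))
  have hmp : ∀ n, m n ≤ patternCount d M n := fun n =>
    Finset.sup_le (fun i _ => c_le_patternCount d M i n)
  have hpm : ∀ n, patternCount d M n ≤ k * m n := by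
    intro n
    rw [patternCount_eq]
    calc ∑ i, c d M i n ≤ ∑ _i : Fin k, m n := Finset.sum_le_sum (fun i _ => hmc n i)
      _ = k * m n := by simp
  have hms : ∀ n, m (n + 1) ≤ (k * m n) ^ d := by
    intro n
    apply Finset.sup_le
    intro i _
    rw [c_succ']
    apply Nat.pow_le_pow_left
    calc ∑ j ∈ succs d M i, c d M j n ≤ ∑ j, c d M j n :=
          Finset.sum_le_sum_of_subset (Finset.subset_univ _)
      _ ≤ ∑ _i : Fin k, m n := Finset.sum_le_sum (fun i _ => hmc n i)
      _ = k * m n := by simp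
  have hkpos : (0 : ℝ) < k := by exact_mod_cast hk
  have hmpos : ∀ n, (0 : ℝ) < m n := fun n => by exact_mod_cast hm1 n
  have hlk : 0 ≤ Real.log k := Real.log_nonneg (by exact_mod_cast hk)
  have hlm : ∀ n, 0 ≤ Real.log (m n) := fun n => Real.log_nonneg (by exact_mod_cast hm1 n)
  set B : ℕ → ℝ := fun n =>
    (Real.log (m n) + Real.log k * (d / (d - 1))) * ((d : ℝ) ^ n)⁻¹ with hB
  have hanti : Antitone B := by
    apply antitone_nat_of_succ_le
    intro n
    have h3 : Real.log (m (n + 1)) ≤ d * (Real.log k + Real.log (m n)) := by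
      have h4 : (m (n + 1) : ℝ) ≤ ((k : ℝ) * m n) ^ d := by exact_mod_cast hms n
      have h5 := Real.log_le_log (hmpos _) h4
      rwa [Real.log_pow, Real.log_mul hkpos.ne' (hmpos n).ne'] at h5
    have h6 : (Real.log (m (n + 1)) + Real.log k * (d / (d - 1))) ≤
        d * (Real.log (m n) + Real.log k * (d / (d - 1))) := by
      calc _ ≤ d * (Real.log k + Real.log (m n)) + Real.log k * (d / (d - 1)) := by linarith
        _ = _ := by field_simp; ring
    calc B (n + 1) ≤ d * (Real.log (m n) + Real.log k * (d / (d - 1))) * ((d : ℝ) ^ (n + 1))⁻¹ := by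
          apply mul_le_mul_of_nonneg_right h6 (by positivity)
      _ = B n := by
          rw [hB, pow_succ]
          field_simp
  have hbdd : BddBelow (Set.range B) := by
    refine ⟨0, ?_⟩
    rintro _ ⟨n, rfl⟩
    have := hlm n
    positivity
  have hlimB := tendsto_atTop_ciInf hanti hbdd
  set l := ⨅ n, B n
  have hinv := tendsto_inv_pow d hd
  have hlimA : Tendsto (fun n : ℕ => Real.log (m n) * ((d : ℝ) ^ n)⁻¹) atTop (𝓝 l) := by
    have h3 := hlimB.sub (hinv.const_mul (Real.log k * (d / (d - 1))))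
    rw [mul_zero, sub_zero] at h3
    refine h3.congr ?_
    intro n
    rw [hB]
    ring
  have hlimP : Tendsto (fun n : ℕ => Real.log (patternCount d M n) * ((d : ℝ) ^ n)⁻¹) atTop
      (𝓝 l) := by
    have h3 := hlimA.add (hinv.const_mul (Real.log k))
    rw [mul_zero, add_zero] at h3
    refine tendsto_of_tendsto_of_tendsto_of_le_of_le hlimA h3 ?_ ?_
    · intro n
      apply mul_le_mul_of_nonneg_right _ (by positivity)
      exact Real.log_le_log (hmpos n) (by exact_mod_cast hmp n)
    · intro n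
      have hp : (0 : ℝ) < patternCount d M n := by
        exact_mod_cast (hm1 n).trans (hmp n)
      have h4 : (patternCount d M n : ℝ) ≤ k * m n := by exact_mod_cast hpm n
      have h5 := Real.log_le_log hp h4
      rw [Real.log_mul hkpos.ne' (hmpos n).ne'] at h5
      calc Real.log (patternCount d M n) * ((d : ℝ) ^ n)⁻¹
          ≤ (Real.log k + Real.log (m n)) * ((d : ℝ) ^ n)⁻¹ :=
            mul_le_mul_of_nonneg_right h5 (by positivity)
        _ = _ := by ring
  refine ⟨l * (((d : ℝ) - 1) / d), ?_⟩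
  have h3 := hlimP.mul (tendsto_pow_div_ball d hd)
  refine h3.congr ?_
  intro n
  have h5 : (d : ℝ) ^ n ≠ 0 := by positivity
  field_simp

/-! ### The main theorem -/

lemma entropySetIrr_subset (d : ℕ) : entropySetIrr d ⊆ entropySet d := by
  rintro h ⟨k, M, h1, _, h3, h4⟩
  exact ⟨k, M, h1, h3, h4⟩

/-- For every `d ≥ 2` the interval `((d-1)/d * log 2, (d-1) * log 2)` has a nonempty open
subinterval containing no element of `entropySet d` (nor of `entropySetIrr d`). -/
theorem result : ∀ d : ℕ, 2 ≤ d → ∃ a b : ℝ, a < b ∧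
    Set.Ioo a b ⊆ Set.Ioo (((d : ℝ) - 1) / d * Real.log 2) (((d : ℝ) - 1) * Real.log 2) ∧
    Set.Ioo a b ∩ entropySet d = ∅ ∧ Set.Ioo a b ∩ entropySetIrr d = ∅ := by
  intro d hd
  have h2 : (2 : ℝ) ≤ d := by exact_mod_cast hd
  have hl2 : (0 : ℝ) < Real.log 2 := Real.log_pos (by norm_num)
  have hd0 : (0 : ℝ) < d := by linarith
  obtain ⟨A, hA, n₀, hn₀⟩ := gm_bound d hd
  set b : ℝ := ((d : ℝ) - 1) / d * (((d : ℝ) + 1) / d * Real.log 2) with hb
  set a : ℝ := max (((d : ℝ) - 1) / d * A) (((d : ℝ) - 1) / d * Real.log 2) with ha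
  have hq : 0 < ((d : ℝ) - 1) / d := div_pos (by linarith) hd0
  have hab : a < b := by
    apply max_lt
    · exact mul_lt_mul_of_pos_left hA hq
    · apply mul_lt_mul_of_pos_left _ hq
      have : 1 < ((d : ℝ) + 1) / d := by
        rw [one_lt_div hd0]; linarith
      nlinarith
  have hmain : Set.Ioo a b ∩ entropySet d = ∅ := by
    rw [Set.eq_empty_iff_forall_notMem]
    rintro h ⟨⟨hah, hhb⟩, k, M, _, hne, hh⟩
    have hk : 1 ≤ k := by
      obtain ⟨t, _⟩ := hne
      have := (t []).2
      omega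
    rcases trichotomy d M with ⟨i, hi, h3⟩ | ⟨i, hi, h3⟩ | h3
    · have h4 := le_entropy d M hd hh hi 1 (3 ^ d) (Nat.one_le_pow _ _ (by norm_num)) h3
      have h5 : b ≤ ((d : ℝ) - 1) / d * (Real.log ((3 ^ d : ℕ) : ℝ) / (d : ℝ) ^ 1) := by
        rw [hb]
        apply mul_le_mul_of_nonneg_left _ hq.le
        push_cast
        rw [pow_one, div_mul_eq_mul_div]
        apply div_le_div_of_nonneg_right _ hd0.le
        have h6 : (2 : ℝ) ^ (d + 1) ≤ 3 ^ d := by
          have : ∀ m : ℕ, 2 ^ (m + 2 + 1) ≤ 3 ^ (m + 2) := by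
            intro m
            induction m with
            | zero => norm_num
            | succ m ih =>
              calc 2 ^ (m + 1 + 2 + 1) = 2 * 2 ^ (m + 2 + 1) := by ring
                _ ≤ 3 * 3 ^ (m + 2) := by omega
                _ = 3 ^ (m + 1 + 2) := by ring
          obtain ⟨m, rfl⟩ : ∃ m, d = m + 2 := ⟨d - 2, by omega⟩
          exact_mod_cast this m
        have h7 := Real.log_le_log (by positivity) h6
        rw [Real.log_pow] at h7
        push_cast at h7
        exact h7
      linarith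
    · have h4 := le_entropy d M hd hh hi 2 (2 ^ ((d + 1) * d))
        (Nat.one_le_pow _ _ (by norm_num)) h3
      have h5 : b = ((d : ℝ) - 1) / d *
          (Real.log ((2 ^ ((d + 1) * d) : ℕ) : ℝ) / (d : ℝ) ^ 2) := by
        rw [hb]
        push_cast
        rw [Real.log_pow]
        push_cast
        field_simp
      linarith
    · have h4 := entropy_le d M hd hk hne hh (fun n => (gm d n).1) (fun n => gm_pos d n)
        h3 A n₀ hn₀
      have h5 : ((d : ℝ) - 1) / d * A ≤ a := le_max_left _ _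
      linarith
  refine ⟨a, b, hab, ?_, hmain, ?_⟩
  · intro x hx
    refine ⟨lt_of_le_of_lt (le_max_right _ _) hx.1, lt_of_lt_of_le hx.2 ?_⟩
    rw [hb]
    have h3 : 1 / (d : ℝ) * (((d : ℝ) + 1) / d) ≤ 1 := by
      rw [div_mul_div_comm, one_mul, div_le_one (by positivity)]
      nlinarith
    calc ((d : ℝ) - 1) / d * (((d : ℝ) + 1) / d * Real.log 2)
        = (1 / (d : ℝ) * (((d : ℝ) + 1) / d)) * (((d : ℝ) - 1) * Real.log 2) := by ring
      _ ≤ 1 * (((d : ℝ) - 1) * Real.log 2) := by
          apply mul_le_mul_of_nonneg_right h3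
          apply mul_nonneg (by linarith) hl2.le
      _ = ((d : ℝ) - 1) * Real.log 2 := one_mul _
  · rw [Set.eq_empty_iff_forall_notMem] at hmain ⊢
    intro h hh
    exact hmain h ⟨hh.1, entropySetIrr_subset d hh.2⟩

end Pool.Agent.Results.MP_256cd6_an.EntropyGap
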